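import Pool.Agent.W190.A9

/-! # Killing the poles of a meromorphic function in a compact set by exponential factors -/

set_option autoImplicit false

open Complex Filter Topology Set Metric
open Pool.Agent.W190

namespace Pool.Agent.W190.M

noncomputable section

theorem sy_cons (d : ℝ) (r : ℂ) (L : List ℂ) (s : ℂ) : sy d (r :: L) s = eF d r s * sy d L s := by
  unfold sy eF
  rw [List.map_cons, List.prod_cons]

theorem sy_diff (d : ℝ) (L : List ℂ) : Differentiable ℂ (sy d L) := by
  induction L with
  | nil =>
    have : sy d [] = fun _ => (1:ℂ) := by funext s; simp [sy]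
    rw [this]
    fun_prop
  | cons r L ih =>
    have : sy d (r :: L) = fun s => eF d r s * sy d L s := by funext s; exact sy_cons d r L s
    rw [this]
    exact (eF_diff d r).mul ih

theorem sy_append' (d : ℝ) (L L' : List ℂ) (s : ℂ) : sy d (L ++ L') s = sy d L s * sy d L' s :=
  sy_append d L L' s

/-- repeated zeros -/
theorem sy_order (d : ℝ) (L : List ℂ) (ρ : ℂ) :
    ((L.count ρ : ℤ) : WithTop ℤ) ≤ meromorphicOrderAt (sy d L) ρ := by
  classical
  induction L with
  | nil =>
    simp only [List.count_nil, Nat.cast_zero]
    exact ((sy_diff d []).analyticAt ρ).meromorphicOrderAt_nonneg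
  | cons r L ih =>
    have e : sy d (r :: L) = eF d r * sy d L := by funext s; exact sy_cons d r L s
    have h1 : AnalyticAt ℂ (eF d r) ρ := (eF_diff d r).analyticAt ρ
    have h2 : AnalyticAt ℂ (sy d L) ρ := (sy_diff d L).analyticAt ρ
    rw [e, meromorphicOrderAt_mul h1.meromorphicAt h2.meromorphicAt, List.count_cons]
    by_cases hr : r = ρ
    · subst hr
      have h3 : ((1:ℤ) : WithTop ℤ) ≤ meromorphicOrderAt (eF d r) r := by
        have e2 : eF d r = (fun s => s - r) * gF d r := by
          funext s
          exact eF_eq d r s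
        have h4 : AnalyticAt ℂ (gF d r) r := (gF_diff d r).analyticAt r
        rw [e2, meromorphicOrderAt_mul (by fun_prop : AnalyticAt ℂ (fun s : ℂ => s - r) r).meromorphicAt
          h4.meromorphicAt, meromorphicOrderAt_id_sub_const]
        have := h4.meromorphicOrderAt_nonneg
        calc ((1:ℤ) : WithTop ℤ) = 1 + 0 := by simp
          _ ≤ _ := by gcongr
      simp only [beq_self_eq_true, if_true]
      have := add_le_add h3 ih
      refine le_trans (le_of_eq ?_) this
      push_cast
      exact add_comm _ _
    · have h3 := h1.meromorphicOrderAt_nonneg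
      have hb : (r == ρ) = false := by simpa using hr
      rw [hb]
      simp only [Bool.false_eq_true, if_false, add_zero]
      calc ((L.count ρ : ℤ) : WithTop ℤ) = 0 + ((L.count ρ : ℤ) : WithTop ℤ) := by simp
        _ ≤ _ := add_le_add h3 ih

/-- the exact order at a point when the other factors do not vanish -/
theorem sy_order_eq (d : ℝ) (hd : d ≠ 0) (L : List ℂ) (ρ : ℂ) (h : ∀ r ∈ L, r ≠ ρ → eF d r ρ ≠ 0) :
    meromorphicOrderAt (sy d L) ρ = ((L.count ρ : ℤ) : WithTop ℤ) := by
  classical
  induction L with
  | nil =>
    have e : sy d [] = fun _ => (1:ℂ) := by funext s; simp [sy]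
    have h1 : AnalyticAt ℂ (fun _ : ℂ => (1:ℂ)) ρ := analyticAt_const
    rw [e, List.count_nil]
    have := (h1.meromorphicNFAt.meromorphicOrderAt_eq_zero_iff).2 one_ne_zero
    rw [this]
    simp
  | cons r L ih =>
    have ih' := ih fun r' hr' => h r' (List.mem_cons_of_mem _ hr')
    have e : sy d (r :: L) = eF d r * sy d L := by funext s; exact sy_cons d r L s
    have h1 : AnalyticAt ℂ (eF d r) ρ := (eF_diff d r).analyticAt ρ
    have h2 : AnalyticAt ℂ (sy d L) ρ := (sy_diff d L).analyticAt ρ
    rw [e, meromorphicOrderAt_mul h1.meromorphicAt h2.meromorphicAt, List.count_cons, ih']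
    by_cases hr : r = ρ
    · subst hr
      have h3 : meromorphicOrderAt (eF d r) r = ((1:ℤ) : WithTop ℤ) := by
        have e2 : eF d r = (fun s => s - r) * gF d r := by
          funext s
          exact eF_eq d r s
        have h4 : AnalyticAt ℂ (gF d r) r := (gF_diff d r).analyticAt r
        rw [e2, meromorphicOrderAt_mul (by fun_prop : AnalyticAt ℂ (fun s : ℂ => s - r) r).meromorphicAt
          h4.meromorphicAt, meromorphicOrderAt_id_sub_const]
        have h5 : meromorphicOrderAt (gF d r) r = 0 := by
          rw [h4.meromorphicNFAt.meromorphicOrderAt_eq_zero_iff, gF_self]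
          exact neg_ne_zero.2 (by exact_mod_cast hd)
        rw [h5]
        simp
      simp only [beq_self_eq_true, if_true]
      rw [h3]
      push_cast
      exact add_comm _ _
    · have h3 : meromorphicOrderAt (eF d r) ρ = 0 := by
        rw [h1.meromorphicNFAt.meromorphicOrderAt_eq_zero_iff]
        exact h r List.mem_cons_self hr
      have hb : (r == ρ) = false := by simpa using hr
      rw [hb, h3]
      simp

theorem poles_finite (A : ℂ → ℂ) (K : Set ℂ) (hK : IsCompact K) (hA : MeromorphicOn A K) :
    {z : ℂ | z ∈ K ∧ meromorphicOrderAt A z < 0}.Finite := by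
  refine ((MeromorphicOn.divisor A K).finiteSupport hK).subset ?_
  rintro z ⟨hz, h0⟩
  rw [Function.mem_support, MeromorphicOn.divisor_apply hA hz]
  intro h1
  rcases WithTop.untop₀_eq_zero.1 h1 with h2 | h2
  · rw [h2] at h0; exact lt_irrefl _ h0
  · rw [h2] at h0; exact absurd h0 (not_lt.2 le_top)

end

end Pool.Agent.W190.M
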