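import Pool.Agent.W190.M.M1

/-! # Killing the poles of a meromorphic function in a compact set by exponential factors, II -/

set_option autoImplicit false

open Complex Filter Topology Set Metric
open Pool.Agent.W190

namespace Pool.Agent.W190.M

noncomputable section

theorem order_int {A : ℂ → ℂ} {z : ℂ} (h : meromorphicOrderAt A z < 0) :
    ∃ n : ℕ, 1 ≤ n ∧ meromorphicOrderAt A z = ((-(n : ℤ) : ℤ) : WithTop ℤ) := by
  have hne : meromorphicOrderAt A z ≠ ⊤ := fun h1 => by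
    rw [h1] at h
    exact absurd h (not_lt.2 le_top)
  obtain ⟨k, hk⟩ := WithTop.ne_top_iff_exists.1 hne
  rw [← hk] at h
  have hk0 : k < 0 := by exact_mod_cast h
  refine ⟨(-k).toNat, by omega, ?_⟩
  rw [← hk]
  congr 1
  omega

theorem count_flat (l : List ℂ) (m : ℕ) (ρ : ℂ) (h : ρ ∈ l) :
    m ≤ (l.flatMap fun ρ => List.replicate m ρ).count ρ := by
  classical
  induction l with
  | nil => simp at h
  | cons a l ih =>
    rw [List.flatMap_cons, List.count_append]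
    rcases List.mem_cons.1 h with h1 | h1
    · subst h1
      rw [List.count_replicate_self]
      omega
    · have := ih h1
      omega

theorem exists_killer (A : ℂ → ℂ) (K : Set ℂ) (hK : IsCompact K) (hA : MeromorphicOn A K) (s₀ : ℂ)
    (hs₀ : s₀ ∈ K) (hneg : meromorphicOrderAt A s₀ < 0) (D : ℕ) (hD : ∀ k : ℕ, (k : ℂ) ≠ s₀)
    (hKre : ∀ z ∈ K, 0 ≤ z.re) :
    ∃ (d : ℝ) (L : List ℂ), 0 < d ∧ d ≤ 1 / 4 ∧ (∀ r ∈ L, 0 ≤ r.re) ∧
      (∀ k ∈ Finset.Icc 1 D, (k : ℂ) ∈ L) ∧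
      ∃ Q : ℂ → ℂ, (∀ z ∈ K, AnalyticAt ℂ Q z) ∧ Q s₀ ≠ 0 ∧
        ∀ s ∈ K, AnalyticAt ℂ A s → Q s = (s - s₀) * (sy d L s * A s) := by
  classical
  have hfin := poles_finite A K hK hA
  set P : Finset ℂ := hfin.toFinset.erase s₀ with hP
  have hPm : ∀ ρ ∈ P, ρ ∈ K ∧ meromorphicOrderAt A ρ < 0 ∧ ρ ≠ s₀ := by
    intro ρ hρ
    rw [hP, Finset.mem_erase, Set.Finite.mem_toFinset] at hρ
    exact ⟨hρ.2.1, hρ.2.2, hρ.1⟩
  have hPm' : ∀ ρ ∈ K, meromorphicOrderAt A ρ < 0 → ρ ≠ s₀ → ρ ∈ P := by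
    intro ρ h1 h2 h3
    rw [hP, Finset.mem_erase, Set.Finite.mem_toFinset]
    exact ⟨h3, h1, h2⟩
  obtain ⟨m₀, hm₀, hord₀⟩ := order_int hneg
  -- the largest multiplicity
  obtain ⟨m, hm⟩ : ∃ m : ℕ, ∀ ρ ∈ P, ((-(m : ℤ) : ℤ) : WithTop ℤ) ≤ meromorphicOrderAt A ρ := by
    have h1 : ∀ ρ ∈ P, ∃ n : ℕ, ((-(n : ℤ) : ℤ) : WithTop ℤ) ≤ meromorphicOrderAt A ρ := by
      intro ρ hρ
      obtain ⟨n, _, hn⟩ := order_int (hPm ρ hρ).2.1
      exact ⟨n, hn.ge⟩
    choose! n hn using h1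
    refine ⟨P.sup n, fun ρ hρ => le_trans ?_ (hn ρ hρ)⟩
    have h2 : n ρ ≤ P.sup n := Finset.le_sup hρ
    exact_mod_cast (by omega : -((P.sup n : ℕ) : ℤ) ≤ -((n ρ : ℕ) : ℤ))
  set L : List ℂ := (P.toList.flatMap fun ρ => List.replicate m ρ) ++
    (List.replicate (m₀ - 1) s₀ ++ (List.range D).map fun k => ((k + 1 : ℕ) : ℂ)) with hL
  have hLmem : ∀ r ∈ L, r ∈ P ∨ r = s₀ ∨ ∃ k ∈ Finset.Icc 1 D, r = (k : ℂ) := by
    intro r hr
    rw [hL, List.mem_append, List.mem_append, List.mem_flatMap, List.mem_map] at hr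
    rcases hr with ⟨ρ, h1, h2⟩ | h | ⟨k, h1, h2⟩
    · left
      rw [List.eq_of_mem_replicate h2]
      exact Finset.mem_toList.1 h1
    · right; left
      exact List.eq_of_mem_replicate h
    · right; right
      rw [List.mem_range] at h1
      exact ⟨k + 1, Finset.mem_Icc.2 ⟨by omega, by omega⟩, h2.symm⟩
  obtain ⟨B, hB⟩ := hK.isBounded.exists_norm_le
  have hB0 : 0 ≤ B := (norm_nonneg _).trans (hB s₀ hs₀)
  set R : ℝ := ‖s₀‖ + (B + D) + 1 with hR
  have hR0 : 1 ≤ R := by rw [hR]; have := norm_nonneg s₀; have : (0:ℝ) ≤ D := Nat.cast_nonneg D; linarith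
  set d : ℝ := min (1 / 4) (1 / (2 * R)) with hd
  have hd0 : 0 < d := lt_min (by norm_num) (by positivity)
  have hLn : ∀ r ∈ L, ‖s₀ - r‖ * d ≤ 1 / 2 := by
    intro r hr
    have hrn : ‖r‖ ≤ B + D := by
      rcases hLmem r hr with h | h | ⟨k, hk, h⟩
      · have := hB r (hPm r h).1
        have : (0:ℝ) ≤ D := Nat.cast_nonneg D
        linarith
      · rw [h]
        have := hB s₀ hs₀
        have : (0:ℝ) ≤ D := Nat.cast_nonneg D
        linarith
      · rw [h, Complex.norm_natCast]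
        have : (k:ℝ) ≤ D := by exact_mod_cast (Finset.mem_Icc.1 hk).2
        linarith
    have h1 : ‖s₀ - r‖ ≤ R := by
      have := norm_sub_le s₀ r
      rw [hR]
      linarith
    have h2 : d ≤ 1 / (2 * R) := min_le_right _ _
    calc ‖s₀ - r‖ * d ≤ R * (1 / (2 * R)) := by gcongr
      _ = 1 / 2 := by field_simp
  have hLre : ∀ r ∈ L, 0 ≤ r.re := by
    intro r hr
    rcases hLmem r hr with h | h | ⟨k, hk, h⟩
    · exact hKre r (hPm r h).1
    · rw [h]; exact hKre s₀ hs₀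
    · rw [h]; simp
  refine ⟨d, L, hd0, min_le_left _ _, hLre, ?_, ?_⟩
  · intro k hk
    rw [Finset.mem_Icc] at hk
    rw [hL, List.mem_append, List.mem_append, List.mem_map]
    right; right
    exact ⟨k - 1, List.mem_range.2 (by omega), by congr 1; omega⟩
  -- counts
  have hcP : ∀ ρ ∈ P, m ≤ L.count ρ := by
    intro ρ hρ
    rw [hL, List.count_append]
    have h1 := count_flat P.toList m ρ (Finset.mem_toList.2 hρ)
    omega
  have hc0 : L.count s₀ = m₀ - 1 := by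
    rw [hL, List.count_append, List.count_append, List.count_replicate_self]
    have h1 : (P.toList.flatMap fun ρ => List.replicate m ρ).count s₀ = 0 := by
      rw [List.count_eq_zero]
      intro h
      rw [List.mem_flatMap] at h
      obtain ⟨ρ, h2, h3⟩ := h
      exact (hPm ρ (Finset.mem_toList.1 h2)).2.2 (List.eq_of_mem_replicate h3).symm
    have h2 : ((List.range D).map fun k => ((k + 1 : ℕ) : ℂ)).count s₀ = 0 := by
      rw [List.count_eq_zero]
      intro h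
      rw [List.mem_map] at h
      obtain ⟨k, _, h3⟩ := h
      exact hD (k + 1) h3
    rw [h1, h2]
    omega
  -- the function
  set Φ : ℂ → ℂ := (fun s => s - s₀) * (sy d L * A) with hΦ
  have ha1 : ∀ z, AnalyticAt ℂ (fun s : ℂ => s - s₀) z := fun z => by fun_prop
  have ha2 : ∀ z, AnalyticAt ℂ (sy d L) z := fun z => (sy_diff d L).analyticAt z
  have hΦm : MeromorphicOn Φ K := fun z hz =>
    (ha1 z).meromorphicAt.mul ((ha2 z).meromorphicAt.mul (hA z hz))
  have hΦo : ∀ z ∈ K, meromorphicOrderAt Φ z = meromorphicOrderAt (fun s : ℂ => s - s₀) z +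
      (meromorphicOrderAt (sy d L) z + meromorphicOrderAt A z) := by
    intro z hz
    rw [hΦ, meromorphicOrderAt_mul (ha1 z).meromorphicAt ((ha2 z).meromorphicAt.mul (hA z hz)),
      meromorphicOrderAt_mul (ha2 z).meromorphicAt (hA z hz)]
  have hord0 : meromorphicOrderAt Φ s₀ = 0 := by
    rw [hΦo s₀ hs₀, meromorphicOrderAt_id_sub_const, sy_order_eq d hd0.ne' L s₀ (fun r hr hne => by
      intro h0
      have h1 := eF_lower hd0 (hLn r hr)
      rw [h0, norm_zero] at h1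
      have h2 : 0 < ‖s₀ - r‖ := norm_pos_iff.2 (sub_ne_zero.2 hne.symm)
      nlinarith [mul_pos (half_pos hd0) h2]), hc0, hord₀]
    have e : (1 : WithTop ℤ) = ((1 : ℤ) : WithTop ℤ) := rfl
    rw [e, ← WithTop.coe_add, ← WithTop.coe_add]
    have : (1 : ℤ) + (((m₀ - 1 : ℕ) : ℤ) + -(m₀ : ℤ)) = 0 := by omega
    rw [this]
    rfl
  have hord : ∀ z ∈ K, 0 ≤ meromorphicOrderAt Φ z := by
    intro z hz
    by_cases h0 : z = s₀
    · rw [h0, hord0]
    · rw [hΦo z hz]
      have h1 := (ha1 z).meromorphicOrderAt_nonneg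
      by_cases h2 : meromorphicOrderAt A z < 0
      · have h3 := hPm' z hz h2 h0
        have h4 := sy_order d L z
        have h5 := hm z h3
        have h6 : ((m : ℤ) : WithTop ℤ) ≤ ((L.count z : ℤ) : WithTop ℤ) := by
          exact_mod_cast hcP z h3
        have h7 : (0 : WithTop ℤ) ≤ meromorphicOrderAt (sy d L) z + meromorphicOrderAt A z := by
          calc (0 : WithTop ℤ) = ((m : ℤ) : WithTop ℤ) + ((-(m : ℤ) : ℤ) : WithTop ℤ) := by
                rw [← WithTop.coe_add, add_neg_cancel]; rfl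
            _ ≤ _ := add_le_add (h6.trans h4) h5
        exact add_nonneg h1 h7
      · have h3 := (ha2 z).meromorphicOrderAt_nonneg
        exact add_nonneg h1 (add_nonneg h3 (not_lt.1 h2))
  set Q := toMeromorphicNFOn Φ K with hQ
  have hQa : ∀ z ∈ K, AnalyticAt ℂ Q z := by
    intro z hz
    have hNF : MeromorphicNFAt Q z := meromorphicNFOn_toMeromorphicNFOn Φ K hz
    rw [← hNF.meromorphicOrderAt_nonneg_iff_analyticAt, hQ, meromorphicOrderAt_toMeromorphicNFOn hΦm hz]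
    exact hord z hz
  refine ⟨Q, hQa, ?_, ?_⟩
  · have hNF : MeromorphicNFAt Q s₀ := meromorphicNFOn_toMeromorphicNFOn Φ K hs₀
    rw [← hNF.meromorphicOrderAt_eq_zero_iff, hQ, meromorphicOrderAt_toMeromorphicNFOn hΦm hs₀]
    exact hord0
  · intro s hs hAs
    have h1 : Q =ᶠ[𝓝[≠] s] Φ := hΦm.toMeromorphicNFOn_eq_self_on_nhdsNE hs
    have hΦc : ContinuousAt Φ s := (ha1 s).continuousAt.mul ((ha2 s).continuousAt.mul hAs.continuousAt)
    have c1 : Tendsto Q (𝓝[≠] s) (𝓝 (Q s)) := (hQa s hs).continuousAt.tendsto.mono_left nhdsWithin_le_nhds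
    have c2 : Tendsto Φ (𝓝[≠] s) (𝓝 (Φ s)) := hΦc.tendsto.mono_left nhdsWithin_le_nhds
    have := tendsto_nhds_unique c1 (c2.congr' h1.symm)
    rw [this, hΦ]
    rfl

end

end Pool.Agent.W190.M
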