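import Pool.Agent.W190.M.M2
import Pool.Agent.W190.A13

/-! # Mesoscopic windows `[x, x^(1+δ)]` -/

set_option autoImplicit false

open Complex Filter Topology Set Metric MeasureTheory
open H353 (ln ln_re ln_im ln_cont ln_ne)
open Pool.Agent.W190

namespace Pool.Agent.W190.M

noncomputable section

theorem kap_lower2 (h : ℝ) (hh : 0 < h) (s : ℂ) (hs0 : s ≠ 0) (hs : ‖s‖ * h ≤ 1 / 2) (N : ℕ) :
    Real.exp (-(2 * (‖s‖ * h) * N)) ≤ ‖kap h s‖ ^ N := by
  have hz : s * (h : ℂ) ≠ 0 := mul_ne_zero hs0 (by exact_mod_cast hh.ne')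
  have hn : ‖s * (h : ℂ)‖ = ‖s‖ * h := by
    rw [norm_mul, Complex.norm_real, Real.norm_eq_abs, abs_of_pos hh]
  have h1 := norm_exp_sub_one_sub_id_le (x := s * h) (by rw [hn]; linarith)
  have hzp : 0 < ‖s * (h : ℂ)‖ := norm_pos_iff.2 hz
  have h2 : ‖kap h s - 1‖ ≤ ‖s‖ * h := by
    have e : kap h s - 1 = (cexp (s * h) - 1 - s * h) / (s * h) := by
      unfold kap
      rw [div_sub_one hz]
    rw [e, norm_div, div_le_iff₀ hzp]
    refine h1.trans ?_
    rw [hn, sq]
  have h3 : 1 - ‖s‖ * h ≤ ‖kap h s‖ := by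
    have h4 : ‖(1:ℂ)‖ ≤ ‖kap h s‖ + ‖kap h s - 1‖ := by
      have := norm_sub_le (kap h s) (kap h s - 1)
      have e : kap h s - (kap h s - 1) = 1 := by ring
      rwa [e] at this
    rw [norm_one] at h4
    linarith
  have hx0 : 0 ≤ ‖s‖ * h := by positivity
  have h5 : Real.exp (-(2 * (‖s‖ * h))) ≤ 1 - ‖s‖ * h := by
    set x := ‖s‖ * h with hx
    -- `exp (-2x) ≤ 1 - x` on `[0, 1/2]`
    have h6 : Real.exp (2 * x) ≥ 1 + 2 * x + 0 := by
      have := Real.add_one_le_exp (2 * x)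
      linarith
    have h7 : Real.exp (-(2 * x)) ≤ 1 / (1 + 2 * x) := by
      rw [Real.exp_neg, ← one_div]
      exact one_div_le_one_div_of_le (by linarith) (by linarith)
    refine h7.trans ?_
    rw [div_le_iff₀ (by linarith)]
    nlinarith
  calc Real.exp (-(2 * (‖s‖ * h) * N)) = Real.exp (-(2 * (‖s‖ * h))) ^ N := by
        rw [← Real.exp_nat_mul]
        congr 1
        ring
    _ ≤ ‖kap h s‖ ^ N := by
        gcongr
        exact h5.trans h3

/-- the core inequality for one height -/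
theorem core2 {a : ℕ → ℂ} (ha0 : a 0 = 0) (hs : Summable fun n : ℕ => ‖a n‖ / (n : ℝ) ^ 2)
    {θ h T d : ℝ} (hθ : 0 < θ) (hθ1 : θ < 1) (hh : 0 < h) (hh1 : h ≤ 1 / 4) (hhT : T * h = 12)
    (hd : 0 < d) (hd1 : d ≤ 1 / 4) (s₀ : ℂ) (hθs : θ < s₀.re) (hs1 : s₀.re < 2) (hsT : |s₀.im| + 1 ≤ T)
    (hsh : ‖s₀‖ * h ≤ 1 / 2) (D : ℕ) (L : List ℂ) (hLre : ∀ r ∈ L, 0 ≤ r.re)
    (hLk : ∀ k ∈ Finset.Icc 1 D, (k : ℂ) ∈ L) (Q : ℂ → ℂ)
    (hQa : ∀ z : ℂ, θ ≤ z.re → z.re ≤ 2 → |z.im| ≤ T → AnalyticAt ℂ Q z) (M r : ℝ) (hr : 0 < r)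
    (hr1 : r ≤ s₀.re - θ) (hr2 : r ≤ 1)
    (hM : ∀ z : ℂ, θ ≤ z.re → z.re ≤ 2 → |z.im| ≤ T → ‖Q z‖ ≤ M)
    (hQe : ∀ s : ℂ, s.re = 2 → |s.im| ≤ T → Q s = (s - s₀) * (sy d L s * LSeries a s))
    (u η : ℝ) (hu : 0 ≤ u) (N : ℕ) (hlen : (N + 2) * h + L.length * d ≤ η) (c : ℕ → ℂ) :
    2 * Real.pi * ‖Q s₀‖ * Real.exp (s₀.re * u - 2 * (‖s₀‖ * h) * (N + 2 : ℕ)) ≤
      2 * Real.pi * (2 ^ L.length * (2 * ((∫ v in u..(u + η), ‖TT a v - PE D c v‖) / h) / h)) +
      Real.exp (2 * u) * 3 ^ L.length * (∑' n : ℕ, ‖a n‖ / (n : ℝ) ^ 2) * (1 / 4) ^ (N + 2) *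
        (2 * Real.pi * T ^ 2) +
      (1 / r * Real.exp (θ * u) * Real.exp (h * (N + 2 : ℕ)) * M) * (2 * T) +
      (1 / r * Real.exp (2 * u) * (1 / 4) ^ (N + 2) * M) * (2 * (2 - θ)) := by
  classical
  have hT1 : 1 ≤ T := by linarith [abs_nonneg s₀.im]
  set Ω : Set ℂ := {z | AnalyticAt ℂ Q z} ∩ {z | 0 < z.re} with hΩ
  have hΩo : IsOpen Ω := (isOpen_analyticAt ℂ Q).inter (isOpen_lt continuous_const Complex.continuous_re)
  have hOp := Op_TT_bound (a := a) (u := u) (η := η) hh hd.le N L hLre D hLk c hlen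
  set E := ∫ v in u..(u + η), ‖TT a v - PE D c v‖ with hE
  -- the integral side
  set F : ℂ → ℂ := fun s => cexp (s * u) * (sy d L s * (kap h s ^ (N + 2) * LSeries a s)) with hFdef
  have hrep : Op h d N L (TT a) u = ∫ ξ, F (ln 2 ξ) := main_rep ha0 hs hh d N L u
  have hFint : Integrable (fun ξ => F (ln 2 ξ)) := main_int ha0 hs hh d N L u
  have hFy := line_int F hFint
  have hline := line_change F
  rw [← hrep] at hline
  set CA := ∑' n : ℕ, ‖a n‖ / (n : ℝ) ^ 2 with hCA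
  have hCA0 : 0 ≤ CA := tsum_nonneg fun n => by positivity
  have hexp2 : ∀ s : ℂ, s.re ≤ 2 → ‖cexp (s * u)‖ ≤ Real.exp (2 * u) := by
    intro s h2
    rw [Complex.norm_exp, Complex.re_mul_ofReal]
    exact Real.exp_le_exp.2 (by nlinarith)
  have htail := tail_bound (fun y : ℝ => F (((2:ℝ) : ℂ) + y * I)) T
    (Real.exp (2 * u) * 3 ^ L.length * CA * (1 / 4) ^ (N + 2)) hT1 (by positivity) hFy (by
      intro y hy
      set s : ℂ := ((2:ℝ) : ℂ) + y * I with hsdef
      have hsre : s.re = 2 := by simp [hsdef]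
      have hsim : s.im = y := by simp [hsdef]
      have hsy : ‖sy d L s‖ ≤ 3 ^ L.length := by
        refine sy_upper L s fun r hr => ?_
        have := hLre r hr
        rw [hsre]
        nlinarith
      have hk := kap_small hh hh1 hhT s hsre.le (by rw [hsim]; exact hy.le)
      rw [hsim] at hk
      have hq1 : T / |y| ≤ 1 := by rw [div_le_one (by linarith)]; exact hy.le
      have hq0 : 0 ≤ T / |y| := by positivity
      have hk2 : ‖kap h s‖ ^ (N + 2) ≤ (1 / 4) ^ (N + 2) * (T / |y|) ^ 2 := by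
        calc ‖kap h s‖ ^ (N + 2) ≤ (1 / 4 * (T / |y|)) ^ (N + 2) := by gcongr
          _ = (1 / 4) ^ (N + 2) * (T / |y|) ^ (N + 2) := by rw [mul_pow]
          _ ≤ (1 / 4) ^ (N + 2) * (T / |y|) ^ 2 := by
              gcongr ?_ * ?_
              exact pow_le_pow_of_le_one hq0 hq1 (by omega)
      have hls := LS_norm_line ha0 hs y
      simp only [hFdef]
      rw [norm_mul, norm_mul, norm_mul, norm_pow]
      calc ‖cexp (s * u)‖ * (‖sy d L s‖ * (‖kap h s‖ ^ (N + 2) * ‖LSeries a s‖))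
          ≤ Real.exp (2 * u) * (3 ^ L.length * (((1 / 4) ^ (N + 2) * (T / |y|) ^ 2) * CA)) := by
            have := hexp2 s hsre.le
            gcongr
        _ = _ := by ring)
  -- the residue
  set g : ℂ → ℂ := fun z => cexp (z * u) * (Q z * kap h z ^ (N + 2)) with hg
  have hgd : DifferentiableOn ℂ g Ω := by
    intro z hz
    have hz1 : 0 < z.re := hz.2
    have h1 : DifferentiableAt ℂ Q z := AnalyticAt.differentiableAt hz.1
    have h2 := kap_diffAt h z (by rintro rfl; simp at hz1) hh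
    have h3 : DifferentiableAt ℂ (fun z : ℂ => cexp (z * u)) z := by fun_prop
    exact (h3.mul (h1.mul (h2.pow _))).differentiableWithinAt
  have hres := res_ineq (T := T) (x₀ := θ) (x₁ := 2) hgd hΩo (w := s₀) hθs hs1
    (by linarith) (fun z z1 z2 z3 => ⟨hQa z z1 z2 z3, by simp only [mem_ofPred_eq]; linarith⟩)
    (1 / r * Real.exp (θ * u) * Real.exp (h * (N + 2 : ℕ)) * M)
    (1 / r * Real.exp (2 * u) * (1 / 4) ^ (N + 2) * M) (by
      intro y hy
      set z : ℂ := (θ : ℂ) + y * I with hz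
      have hzre : z.re = θ := by simp [hz]
      have hzim : z.im = y := by simp [hz]
      have hzr : r ≤ ‖z - s₀‖ := by
        have := Complex.abs_re_le_norm (z - s₀)
        rw [Complex.sub_re, hzre] at this
        have := neg_abs_le (θ - s₀.re)
        linarith
      have hq := hM z hzre.ge (by rw [hzre]; linarith) (by rw [hzim]; exact hy)
      have hk := kap_norm h hh z (by rw [hzre]; linarith) (by
        rintro h0
        rw [h0] at hzre
        simp at hzre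
        linarith)
      have hk2 : ‖kap h z‖ ^ (N + 2) ≤ Real.exp (h * (N + 2 : ℕ)) := by
        calc ‖kap h z‖ ^ (N + 2) ≤ (Real.exp (z.re * h)) ^ (N + 2) := by gcongr
          _ ≤ (Real.exp h) ^ (N + 2) := by
              gcongr
              rw [hzre]
              nlinarith
          _ = _ := by rw [← Real.exp_nat_mul, mul_comm]
      have he1 : ‖cexp (z * u)‖ = Real.exp (θ * u) := by
        rw [Complex.norm_exp, Complex.re_mul_ofReal, hzre]
      have hM0 : 0 ≤ M := (norm_nonneg _).trans hq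
      rw [hg]
      simp only
      rw [norm_mul, norm_mul, norm_mul, norm_inv, norm_pow, he1]
      calc ‖z - s₀‖⁻¹ * (Real.exp (θ * u) * (‖Q z‖ * ‖kap h z‖ ^ (N + 2)))
          ≤ r⁻¹ * (Real.exp (θ * u) * (M * Real.exp (h * (N + 2 : ℕ)))) := by gcongr
        _ = _ := by ring) (by
      intro x y hx1 hx2 hy
      set z : ℂ := (x : ℂ) + y * I with hz
      have hzre : z.re = x := by simp [hz]
      have hzim : z.im = y := by simp [hz]
      have hzr : r ≤ ‖z - s₀‖ := by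
        have h1 := Complex.abs_im_le_norm (z - s₀)
        rw [Complex.sub_im, hzim] at h1
        have h2 := abs_sub_abs_le_abs_sub y s₀.im
        linarith
      have hq := hM z (by rw [hzre]; exact hx1) (by rw [hzre]; exact hx2)
        (by rw [hzim]; exact hy.le)
      have hk := kap_small hh hh1 hhT z (by rw [hzre]; exact hx2) (by rw [hzim]; exact hy.ge)
      rw [hzim, hy, div_self (by linarith), mul_one] at hk
      have he1 := hexp2 z (by rw [hzre]; exact hx2)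
      have hM0 : 0 ≤ M := (norm_nonneg _).trans hq
      rw [hg]
      simp only
      rw [norm_mul, norm_mul, norm_mul, norm_inv, norm_pow]
      calc ‖z - s₀‖⁻¹ * (‖cexp (z * u)‖ * (‖Q z‖ * ‖kap h z‖ ^ (N + 2)))
          ≤ r⁻¹ * (Real.exp (2 * u) * (M * (1 / 4) ^ (N + 2))) := by gcongr
        _ = _ := by ring)
  -- comparison on the segment
  have hseg : ∫ y in (-T)..T, (((2:ℝ) : ℂ) + y * I - s₀)⁻¹ * g (((2:ℝ) : ℂ) + y * I) =
      ∫ y in (-T)..T, F (((2:ℝ) : ℂ) + y * I) := by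
    refine intervalIntegral.integral_congr fun y hy => ?_
    rw [uIcc_of_le (by linarith)] at hy
    have hy' : |y| ≤ T := abs_le.2 ⟨hy.1, hy.2⟩
    set s : ℂ := ((2:ℝ) : ℂ) + y * I with hsdef
    have hsre : s.re = 2 := by simp [hsdef]
    have hsim : s.im = y := by simp [hsdef]
    have hsρ : s - s₀ ≠ 0 := by
      intro h0
      have := congrArg Complex.re h0
      rw [Complex.sub_re, hsre, Complex.zero_re] at this
      linarith
    have h1 := hQe s hsre (by rw [hsim]; exact hy')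
    rw [hg, hFdef]
    simp only
    rw [h1]
    field_simp
  rw [hseg] at hres
  have hpi := Real.pi_pos
  rw [hline, norm_smul, Real.norm_eq_abs, abs_of_pos (by positivity)] at htail
  have hρne : s₀ ≠ 0 := by
    rintro h0
    rw [h0] at hθs
    simp at hθs
    linarith
  have hkl := kap_lower2 h hh s₀ hρne hsh (N + 2)
  have hgl : Real.exp (s₀.re * u) * (‖Q s₀‖ * Real.exp (-(2 * (‖s₀‖ * h) * (N + 2 : ℕ)))) ≤ ‖g s₀‖ := by
    rw [hg]
    simp only
    rw [norm_mul, norm_mul, norm_pow, Complex.norm_exp, Complex.re_mul_ofReal]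
    gcongr
  have h5 : 2 * Real.pi * ‖Q s₀‖ * Real.exp (s₀.re * u - 2 * (‖s₀‖ * h) * (N + 2 : ℕ)) ≤
      2 * Real.pi * ‖g s₀‖ :=
    calc _ = 2 * Real.pi * (Real.exp (s₀.re * u) *
          (‖Q s₀‖ * Real.exp (-(2 * (‖s₀‖ * h) * (N + 2 : ℕ))))) := by
          rw [sub_eq_add_neg, Real.exp_add]
          ring
      _ ≤ _ := by gcongr
  have h6 : 2 * Real.pi * ‖Op h d N L (TT a) u‖ ≤
      2 * Real.pi * (2 ^ L.length * (2 * (E / h) / h)) := by gcongr
  linarith

end

end Pool.Agent.W190.M
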