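import Pool.Agent.W190.M.M3

/-! # Mesoscopic windows `[x, x^(1+δ)]`, the theorem -/

set_option autoImplicit false

open Complex Filter Topology Set Metric MeasureTheory
open H353 (ln ln_re ln_im ln_cont ln_ne)
open Pool.Agent.W190

namespace Pool.Agent.W190.M

noncomputable section

/-- A pole `s₀` of the continuation of the Dirichlet series `∑ a n n^{-s}` forces the summatory
function to be large, in the mean, in every window `[e^u, e^((1+δ)u)]`. -/
theorem meso {a : ℕ → ℂ} (ha0 : a 0 = 0) (hs : Summable fun n : ℕ => ‖a n‖ / (n : ℝ) ^ 2)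
    (A : ℂ → ℂ) {θ : ℝ} (hθ : 0 < θ) (s₀ : ℂ) (hθs : θ < s₀.re) (hs1 : s₀.re ≤ 1)
    (hsne : ∀ k : ℕ, (k : ℂ) ≠ s₀) (hA : ∀ z : ℂ, θ ≤ z.re → MeromorphicAt A z)
    (hA2 : ∀ z : ℂ, z.re = 2 → AnalyticAt ℂ A z ∧ LSeries a z = A z)
    (hpole : meromorphicOrderAt A s₀ < 0) (D : ℕ) {δ ε : ℝ} (hδ : 0 < δ) (hε : 0 < ε) :
    ∀ᶠ u : ℝ in atTop, ∀ c : ℕ → ℂ, Real.exp ((s₀.re - ε) * u) ≤
      ∫ v in u..(u + δ * u), ‖TT a v - PE D c v‖ := by
  -- reduce to small `ε`
  set ε' : ℝ := min ε (min ((s₀.re - θ) / 2) 1) with hε'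
  have hε'0 : 0 < ε' := lt_min hε (lt_min (by linarith) one_pos)
  have hε'1 : ε' ≤ (s₀.re - θ) / 2 := (min_le_right _ _).trans (min_le_left _ _)
  have hε'2 : ε' ≤ 1 := (min_le_right _ _).trans (min_le_right _ _)
  have hε'3 : ε' ≤ ε := min_le_left _ _
  have hn0 : 0 ≤ ‖s₀‖ := norm_nonneg _
  set h : ℝ := min (min (1 / 4) (δ / 20)) (ε' / (160 * (‖s₀‖ + 1))) with hh
  have hh0 : 0 < h := lt_min (lt_min (by norm_num) (by positivity)) (by positivity)
  have hh1 : h ≤ 1 / 4 := (min_le_left _ _).trans (min_le_left _ _)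
  have hh2 : h ≤ δ / 20 := (min_le_left _ _).trans (min_le_right _ _)
  have hh3 : h * (160 * (‖s₀‖ + 1)) ≤ ε' := by
    have h1 : h ≤ ε' / (160 * (‖s₀‖ + 1)) := min_le_right _ _
    rwa [le_div_iff₀ (by positivity)] at h1
  have hh4 : 160 * (‖s₀‖ * h) ≤ ε' := by nlinarith
  have hh5 : 160 * h ≤ ε' := by nlinarith
  set T : ℝ := 12 / h with hT
  have hhT : T * h = 12 := by rw [hT]; field_simp
  have hTs : ‖s₀‖ + 2 ≤ T := by
    rw [hT, le_div_iff₀ hh0]
    nlinarith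
  have hsT : |s₀.im| + 1 ≤ T := by linarith [Complex.abs_im_le_norm s₀]
  -- the compact rectangle
  set K : Set ℂ := Icc θ 2 ×ℂ Icc (-T) T with hK
  have hKc : IsCompact K := isCompact_Icc.reProdIm isCompact_Icc
  have hKm : ∀ z : ℂ, θ ≤ z.re → z.re ≤ 2 → |z.im| ≤ T → z ∈ K := by
    intro z h1 h2 h3
    rw [hK, Complex.mem_reProdIm]
    exact ⟨⟨h1, h2⟩, abs_le.1 h3⟩
  have hKm' : ∀ z ∈ K, θ ≤ z.re ∧ z.re ≤ 2 ∧ |z.im| ≤ T := by
    intro z hz
    rw [hK, Complex.mem_reProdIm] at hz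
    exact ⟨hz.1.1, hz.1.2, abs_le.2 hz.2⟩
  have hs₀K : s₀ ∈ K := hKm s₀ hθs.le (by linarith) (by linarith)
  obtain ⟨d, L, hd0, hd1, hLre, hLk, Q, hQa, hQ0, hQe⟩ := exists_killer A K hKc
    (fun z hz => hA z (hKm' z hz).1) s₀ hs₀K hpole D hsne (fun z hz => by linarith [(hKm' z hz).1])
  have hQc : ContinuousOn Q K := fun z hz => (hQa z hz).continuousAt.continuousWithinAt
  obtain ⟨M, hM⟩ := hKc.exists_bound_of_continuousOn hQc
  set r : ℝ := min (s₀.re - θ) 1 with hr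
  have hr0 : 0 < r := lt_min (by linarith) one_pos
  have hM0 : 0 ≤ M := (norm_nonneg _).trans (hM s₀ hs₀K)
  have hpi := Real.pi_pos
  set CA := ∑' n : ℕ, ‖a n‖ / (n : ℝ) ^ 2 with hCA
  have hCA0 : 0 ≤ CA := tsum_nonneg fun n => by positivity
  -- constants
  set K0 : ℝ := 2 * Real.pi * ‖Q s₀‖ * Real.exp (-1) with hK0
  have hK00 : 0 < K0 := by
    have := norm_pos_iff.2 hQ0
    positivity
  set K1 : ℝ := 2 * Real.pi * (2 ^ L.length * (2 / h / h)) with hK1
  set K2 : ℝ := 3 ^ L.length * CA * (2 * Real.pi * T ^ 2) + 1 / r * Real.exp 1 * M * (2 * T) +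
    1 / r * M * (2 * (2 - θ)) with hK2
  have hT0 : 0 < T := by linarith
  have hK20 : 0 ≤ K2 := by
    have : 0 ≤ 2 - θ := by linarith
    positivity
  have hgr := growth (K := K0) (β := s₀.re - ε' / 4) (θ := θ + ε' / 4) (ε := ε' / 2) hK00
    (by linarith) (by linarith) (Q1 := fun _ => K1) (Q2 := fun _ => K2)
    (SP.const (by positivity)) (SP.const hK20)
  filter_upwards [hgr, eventually_ge_atTop 1, eventually_ge_atTop ((3 * h + L.length * d) / (δ / 2))] with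
    u hgu hu1 hu2 c
  rw [div_le_iff₀ (by positivity)] at hu2
  have hN1 := Nn_lower u
  have hN2 := Nn_upper (u := u) (by linarith)
  set N := Nn u with hN
  have hN3 : ((N + 2 : ℕ) : ℝ) ≤ 10 * u + 3 := by push_cast; linarith
  have hlen : (N + 2) * h + L.length * d ≤ δ * u := by
    have h1 : ((N : ℝ) + 2) * h ≤ (10 * u + 3) * h := by
      gcongr ?_ * h
      linarith
    nlinarith
  set E := ∫ v in u..(u + δ * u), ‖TT a v - PE D c v‖ with hE
  have hE0 : 0 ≤ E := by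
    refine intervalIntegral.integral_nonneg ?_ fun v _ => norm_nonneg _
    have : 0 < δ * u := by positivity
    linarith
  have hcore := core2 ha0 hs hθ (by linarith) hh0 hh1 hhT hd0 hd1 s₀ hθs (by linarith) hsT
    (by nlinarith) D L hLre hLk Q
    (fun z h1 h2 h3 => hQa z (hKm z h1 h2 h3)) M r hr0 (min_le_left _ _) (min_le_right _ _)
    (fun z h1 h2 h3 => hM z (hKm z h1 h2 h3))
    (fun z h1 h3 => by
      have h2 := hA2 z h1
      rw [hQe z (hKm z (by rw [h1]; linarith) h1.le h3) h2.1, h2.2])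
    u (δ * u) (by linarith) N hlen c
  have h4u : Real.exp (2 * u) * (1 / 4) ^ (N + 2) ≤ 1 := by
    have h1 : ((1:ℝ) / 4) ^ (N + 2) = Real.exp (-(Real.log 4 * (N + 2 : ℕ))) := by
      have h2 : (1:ℝ) / 4 = Real.exp (-Real.log 4) := by
        rw [Real.exp_neg, Real.exp_log (by norm_num)]
        norm_num
      rw [h2, ← Real.exp_nat_mul]
      congr 1
      ring
    rw [h1, ← Real.exp_add]
    apply Real.exp_le_one_iff.2
    have h3 : 1 ≤ Real.log 4 := by
      rw [Real.le_log_iff_exp_le (by norm_num)]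
      have := Real.exp_one_lt_d9
      linarith
    have h5 : 10 * u ≤ ((N + 2 : ℕ) : ℝ) := by push_cast; linarith
    nlinarith
  have hleft : Real.exp (h * (N + 2 : ℕ)) ≤ Real.exp 1 * Real.exp (ε' / 4 * u) := by
    rw [← Real.exp_add]
    apply Real.exp_le_exp.2
    calc h * ((N + 2 : ℕ) : ℝ) ≤ h * (10 * u + 3) := by gcongr
      _ ≤ 1 + ε' / 4 * u := by nlinarith
  have hmain : K0 * Real.exp ((s₀.re - ε' / 4) * u) ≤
      2 * Real.pi * ‖Q s₀‖ * Real.exp (s₀.re * u - 2 * (‖s₀‖ * h) * (N + 2 : ℕ)) := by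
    rw [hK0, mul_assoc, ← Real.exp_add]
    refine mul_le_mul_of_nonneg_left (Real.exp_le_exp.2 ?_) (by positivity)
    have h1 : 2 * (‖s₀‖ * h) * ((N + 2 : ℕ) : ℝ) ≤ 2 * (‖s₀‖ * h) * (10 * u + 3) := by gcongr
    have h2 : 0 ≤ ‖s₀‖ * h := by positivity
    nlinarith
  have hle : K0 * Real.exp ((s₀.re - ε' / 4) * u) ≤ K1 * E + K2 * Real.exp ((θ + ε' / 4) * u) := by
    refine hmain.trans (hcore.trans ?_)
    have e1 : 2 * Real.pi * (2 ^ L.length * (2 * (E / h) / h)) = K1 * E := by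
      rw [hK1]; ring
    rw [e1]
    have hex1 : 1 ≤ Real.exp ((θ + ε' / 4) * u) := by
      apply Real.one_le_exp
      have : 0 ≤ θ + ε' / 4 := by linarith
      positivity
    have t1 : Real.exp (2 * u) * 3 ^ L.length * CA * (1 / 4) ^ (N + 2) * (2 * Real.pi * T ^ 2) ≤
        3 ^ L.length * CA * (2 * Real.pi * T ^ 2) * Real.exp ((θ + ε' / 4) * u) := by
      calc Real.exp (2 * u) * 3 ^ L.length * CA * (1 / 4) ^ (N + 2) * (2 * Real.pi * T ^ 2)
          = 3 ^ L.length * CA * (2 * Real.pi * T ^ 2) * (Real.exp (2 * u) * (1 / 4) ^ (N + 2)) := by ring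
        _ ≤ 3 ^ L.length * CA * (2 * Real.pi * T ^ 2) * Real.exp ((θ + ε' / 4) * u) := by
            gcongr
            exact h4u.trans hex1
    have t2 : 1 / r * Real.exp (θ * u) * Real.exp (h * (N + 2 : ℕ)) * M * (2 * T) ≤
        1 / r * Real.exp 1 * M * (2 * T) * Real.exp ((θ + ε' / 4) * u) := by
      calc 1 / r * Real.exp (θ * u) * Real.exp (h * (N + 2 : ℕ)) * M * (2 * T)
          ≤ 1 / r * Real.exp (θ * u) * (Real.exp 1 * Real.exp (ε' / 4 * u)) * M * (2 * T) := by gcongr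
        _ = 1 / r * Real.exp 1 * M * (2 * T) * (Real.exp (θ * u) * Real.exp (ε' / 4 * u)) := by ring
        _ = _ := by rw [← Real.exp_add]; congr 2; ring
    have t3 : 1 / r * Real.exp (2 * u) * (1 / 4) ^ (N + 2) * M * (2 * (2 - θ)) ≤
        1 / r * M * (2 * (2 - θ)) * Real.exp ((θ + ε' / 4) * u) := by
      have : 0 ≤ 2 - θ := by linarith
      calc 1 / r * Real.exp (2 * u) * (1 / 4) ^ (N + 2) * M * (2 * (2 - θ))
          = 1 / r * M * (2 * (2 - θ)) * (Real.exp (2 * u) * (1 / 4) ^ (N + 2)) := by ring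
        _ ≤ _ := by
            gcongr
            exact h4u.trans hex1
    rw [hK2, add_mul, add_mul]
    linarith
  have := hgu E hE0 hle
  refine le_trans (Real.exp_le_exp.2 ?_) this
  have : (s₀.re - ε) * u ≤ (s₀.re - ε' / 4 - ε' / 2) * u := by
    gcongr ?_ * u
    linarith
  linarith

end

end Pool.Agent.W190.M
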