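import Pool.Agent.W190.M.M4
import Pool.Agent.W190.A15

/-! # Mesoscopic windows for Dirichlet characters -/

set_option autoImplicit false

open Complex Filter Topology Set Metric MeasureTheory
open Pool.Agent.W190
open DirichletCharacter (LFunction)

namespace Pool.Agent.W190.M

noncomputable section

theorem zeta_mero (z : ℂ) : MeromorphicAt riemannZeta z := by
  by_cases hz : z = 1
  · subst hz
    have h1 : AnalyticAt ℂ H353.FF 1 := H353.FF_anal 1
    have h2 : MeromorphicAt (fun s : ℂ => H353.FF s / (s - 1)) 1 :=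
      h1.meromorphicAt.div (by fun_prop : AnalyticAt ℂ (fun s : ℂ => s - 1) 1).meromorphicAt
    refine h2.congr ?_
    filter_upwards [self_mem_nhdsWithin] with s hs
    have hs1 : s ≠ 1 := hs
    have hs2 : s - 1 ≠ 0 := sub_ne_zero.2 hs1
    rw [FF_eq_ne hs1]
    field_simp
  · have : AnalyticAt ℂ riemannZeta z := by
      have h : DifferentiableOn ℂ riemannZeta {1}ᶜ := fun w hw =>
        (differentiableAt_riemannZeta hw).differentiableWithinAt
      exact h.analyticAt (isOpen_compl_singleton.mem_nhds hz)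
    exact this.meromorphicAt

variable {q : ℕ} [NeZero q] (χ : DirichletCharacter ℂ q)

theorem L_anal {z : ℂ} (hz : z ≠ 1) : AnalyticAt ℂ (LFunction χ) z := by
  have h : DifferentiableOn ℂ (LFunction χ) {1}ᶜ := fun w hw =>
    (DirichletCharacter.differentiableAt_LFunction χ w (Or.inl hw)).differentiableWithinAt
  exact h.analyticAt (isOpen_compl_singleton.mem_nhds hz)

theorem L_mero (z : ℂ) : MeromorphicAt (LFunction χ) z := by
  by_cases hz : z = 1
  · subst hz
    by_cases hχ : χ = 1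
    · subst hχ
      have h1 : AnalyticAt ℂ (fun s : ℂ => ∏ p ∈ q.primeFactors, (1 - (p : ℂ) ^ (-s))) 1 := by
        refine Differentiable.analyticAt ?_ 1
        refine Differentiable.fun_finsetProd fun p hp => ?_
        have hp0 : (p : ℂ) ≠ 0 := by
          exact_mod_cast (Nat.prime_of_mem_primeFactors hp).ne_zero
        intro s
        have : DifferentiableAt ℂ (fun s : ℂ => (p : ℂ) ^ (-s)) s :=
          (differentiableAt_id.neg).const_cpow (Or.inl hp0)
        fun_prop
      refine (h1.meromorphicAt.mul (zeta_mero 1)).congr ?_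
      filter_upwards [self_mem_nhdsWithin] with s hs
      exact (DirichletCharacter.LFunctionTrivChar_eq_mul_riemannZeta hs).symm
    · have h : Differentiable ℂ (LFunction χ) := DirichletCharacter.differentiable_LFunction hχ
      exact (h.analyticAt 1).meromorphicAt
  · exact (L_anal χ hz).meromorphicAt

theorem L_order {ρ : ℂ} (hρ : LFunction χ ρ = 0) (h1 : ρ.re < 1) :
    ∃ n : ℕ, 1 ≤ n ∧ meromorphicOrderAt (LFunction χ) ρ = ((n : ℤ) : WithTop ℤ) := by
  have hρ1 : ρ ≠ 1 := by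
    rintro rfl
    simp at h1
  have han := L_anal χ hρ1
  have hne : analyticOrderAt (LFunction χ) ρ ≠ ⊤ := by
    intro h
    rw [analyticOrderAt_eq_top] at h
    have hU : AnalyticOnNhd ℂ (LFunction χ) {1}ᶜ := fun z hz => L_anal χ hz
    have hc : IsPreconnected ({1}ᶜ : Set ℂ) :=
      (isConnected_compl_singleton_of_one_lt_rank (by simp) (1 : ℂ)).isPreconnected
    have h2 := hU.eqOn_zero_of_preconnected_of_eventuallyEq_zero hc hρ1 h
    have h3 : (2:ℂ) ∈ ({1}ᶜ : Set ℂ) := by simp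
    have h4 := h2 h3
    exact DirichletCharacter.LFunction_ne_zero_of_one_le_re χ (Or.inr (by norm_num)) (by norm_num) h4
  obtain ⟨n, hn⟩ := ENat.ne_top_iff_exists.1 hne
  refine ⟨n, ?_, ?_⟩
  · by_contra h
    have h0 : n = 0 := by omega
    rw [h0] at hn
    have : analyticOrderAt (LFunction χ) ρ = 0 := by rw [← hn]; rfl
    rw [han.analyticOrderAt_eq_zero] at this
    exact this hρ
  · rw [han.meromorphicOrderAt_eq, ← hn]
    rfl

theorem inv_order {ρ : ℂ} (hρ : LFunction χ ρ = 0) (h1 : ρ.re < 1) :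
    meromorphicOrderAt (LFunction χ)⁻¹ ρ < 0 := by
  obtain ⟨n, hn, h⟩ := L_order χ hρ h1
  rw [meromorphicOrderAt_inv, h]
  have : -((n : ℤ) : WithTop ℤ) = ((-(n : ℤ) : ℤ) : WithTop ℤ) := rfl
  rw [this]
  exact_mod_cast (by omega : -(n : ℤ) < 0)

/-- the coefficients `μ(n) χ(n)` -/
def muchi (n : ℕ) : ℂ := χ n * ((ArithmeticFunction.moebius n : ℤ) : ℂ)

theorem muchi_norm (n : ℕ) : ‖muchi χ n‖ ≤ 1 := by
  unfold muchi
  rw [norm_mul]
  have h1 : ‖((ArithmeticFunction.moebius n : ℤ) : ℂ)‖ ≤ 1 := by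
    rw [Complex.norm_intCast]
    exact_mod_cast ArithmeticFunction.abs_moebius_le_one
  have h2 := DirichletCharacter.norm_le_one χ (n : ZMod q)
  calc ‖χ n‖ * ‖((ArithmeticFunction.moebius n : ℤ) : ℂ)‖ ≤ 1 * 1 := by gcongr
    _ = 1 := one_mul 1

theorem muchi_sum : Summable fun n : ℕ => ‖muchi χ n‖ / (n : ℝ) ^ 2 := by
  refine Summable.of_nonneg_of_le (fun n => by positivity) (fun n => ?_)
    (Real.summable_one_div_nat_pow.2 (by norm_num : 1 < 2))
  have := muchi_norm χ n
  gcongr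

theorem muchi_window {ρ : ℂ} (hρ : LFunction χ ρ = 0) (h0 : 0 < ρ.re) (h1 : ρ.re < 1) (D : ℕ)
    {δ ε : ℝ} (hδ : 0 < δ) (hε : 0 < ε) :
    ∀ᶠ u : ℝ in atTop, ∀ c : ℕ → ℂ, Real.exp ((ρ.re - ε) * u) ≤
      ∫ v in u..(u + δ * u), ‖TT (muchi χ) v - PE D c v‖ := by
  refine meso (by simp [muchi]) (muchi_sum χ) (LFunction χ)⁻¹ (θ := ρ.re / 2) (by linarith) ρ (by linarith)
    h1.le ?_ (fun z _ => (L_mero χ z).inv) ?_ (inv_order χ hρ h1) D hδ hε
  · intro k hk
    have h2 : ρ.re = k := by rw [← hk]; simp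
    rcases Nat.eq_zero_or_pos k with h3 | h3
    · subst h3
      rw [h2] at h0
      simp at h0
    · have : (1:ℝ) ≤ k := by exact_mod_cast h3
      linarith
  · intro z hz
    have hz1 : z ≠ 1 := by
      rintro rfl
      norm_num at hz
    have hL0 : LFunction χ z ≠ 0 :=
      DirichletCharacter.LFunction_ne_zero_of_one_le_re χ (Or.inr hz1) (by rw [hz]; norm_num)
    refine ⟨(L_anal χ hz1).inv hL0, ?_⟩
    have h2 := DirichletCharacter.LSeries.mul_mu_eq_one χ (s := z) (by rw [hz]; norm_num)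
    rw [← DirichletCharacter.LFunction_eq_LSeries χ (by rw [hz]; norm_num)] at h2
    have h3 : LSeries (muchi χ) z = LSeries ((fun n : ℕ => χ n) * fun n : ℕ =>
      ((ArithmeticFunction.moebius n : ℤ) : ℂ)) z := rfl
    rw [h3, Pi.inv_apply]
    exact eq_inv_of_mul_eq_one_right h2

/-- the coefficients `Λ(n) χ(n)` -/
def lamchi (n : ℕ) : ℂ := χ n * ((ArithmeticFunction.vonMangoldt n : ℝ) : ℂ)

theorem lamchi_norm (n : ℕ) : ‖lamchi χ n‖ ≤ ‖((ArithmeticFunction.vonMangoldt n : ℝ) : ℂ)‖ := by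
  unfold lamchi
  rw [norm_mul]
  have h2 := DirichletCharacter.norm_le_one χ (n : ZMod q)
  calc _ ≤ 1 * ‖((ArithmeticFunction.vonMangoldt n : ℝ) : ℂ)‖ := by gcongr
    _ = _ := one_mul _

theorem lamchi_sum : Summable fun n : ℕ => ‖lamchi χ n‖ / (n : ℝ) ^ 2 := by
  refine Summable.of_nonneg_of_le (fun n => by positivity) (fun n => ?_) mangoldt_sum
  have := lamchi_norm χ n
  gcongr

theorem lamchi_window {ρ : ℂ} (hρ : LFunction χ ρ = 0) (h0 : 0 < ρ.re) (h1 : ρ.re < 1) (D : ℕ)
    {δ ε : ℝ} (hδ : 0 < δ) (hε : 0 < ε) :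
    ∀ᶠ u : ℝ in atTop, ∀ c : ℕ → ℂ, Real.exp ((ρ.re - ε) * u) ≤
      ∫ v in u..(u + δ * u), ‖TT (lamchi χ) v - PE D c v‖ := by
  have hm : ∀ z, MeromorphicAt (-logDeriv (LFunction χ)) z := by
    intro z
    have h2 := L_mero χ z
    exact (h2.deriv.div h2).neg
  refine meso (by simp [lamchi]) (lamchi_sum χ) (-logDeriv (LFunction χ)) (θ := ρ.re / 2)
    (by linarith) ρ (by linarith) h1.le ?_ (fun z _ => hm z) ?_ ?_ D hδ hε
  · intro k hk
    have h2 : ρ.re = k := by rw [← hk]; simp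
    rcases Nat.eq_zero_or_pos k with h3 | h3
    · subst h3
      rw [h2] at h0
      simp at h0
    · have : (1:ℝ) ≤ k := by exact_mod_cast h3
      linarith
  · intro z hz
    have hz1 : z ≠ 1 := by
      rintro rfl
      norm_num at hz
    have hL0 : LFunction χ z ≠ 0 :=
      DirichletCharacter.LFunction_ne_zero_of_one_le_re χ (Or.inr hz1) (by rw [hz]; norm_num)
    have han := L_anal χ hz1
    refine ⟨(han.deriv.div han hL0).neg, ?_⟩
    have hz2 : 1 < z.re := by rw [hz]; norm_num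
    have h2 := DirichletCharacter.LSeries_twist_vonMangoldt_eq χ (s := z) hz2
    have h3 : LSeries (lamchi χ) z = LSeries ((fun n : ℕ => χ n) * fun n : ℕ =>
      ((ArithmeticFunction.vonMangoldt n : ℝ) : ℂ)) z := rfl
    have h4 : LFunction χ =ᶠ[𝓝 z] LSeries fun n => χ n := by
      filter_upwards [(isOpen_lt continuous_const Complex.continuous_re).mem_nhds hz2] with s hs
      exact DirichletCharacter.LFunction_eq_LSeries χ hs
    rw [h3, h2, Pi.neg_apply, logDeriv_apply, h4.deriv_eq, h4.eq_of_nhds]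
    ring
  · obtain ⟨n, hn, h⟩ := L_order χ hρ h1
    have hng : meromorphicOrderAt (-logDeriv (LFunction χ)) ρ = meromorphicOrderAt (logDeriv (LFunction χ)) ρ := meromorphicOrderAt_neg.symm
    rw [hng, meromorphicOrderAt_logDeriv_eq_neg_one (L_mero χ ρ) (by
      rw [h]
      exact_mod_cast (by omega : (n : ℤ) ≠ 0)) (by rw [h]; exact WithTop.coe_ne_top)]
    have e : (-1 : WithTop ℤ) = ((-1 : ℤ) : WithTop ℤ) := rfl
    have e0 : (0 : WithTop ℤ) = ((0 : ℤ) : WithTop ℤ) := rfl
    rw [e, e0]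
    exact WithTop.coe_lt_coe.2 (by norm_num)

end

end Pool.Agent.W190.M
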