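import Pool.Agent.W190.M.M5
import Pool.Agent.H343R2.PV

/-! # The exponential sum of the Möbius function: completion -/

set_option autoImplicit false

open Filter Topology Set MeasureTheory
open H343 H343.PVaux H343.Gauss
open Pool.Agent.W190

namespace Pool.Agent.W190.M

noncomputable section

theorem ex_def (x : ℝ) : ex x = Complex.exp ((2 * Real.pi * x : ℝ) * Complex.I) := rfl

theorem ex_int (k : ℤ) : ex (k : ℝ) = 1 := by
  rw [ex_def, Complex.exp_eq_one_iff]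
  exact ⟨k, by push_cast; ring⟩

theorem ex_eq_one {x : ℝ} (h : ex x = 1) : ∃ k : ℤ, x = k := by
  rw [ex_def, Complex.exp_eq_one_iff] at h
  obtain ⟨k, hk⟩ := h
  refine ⟨k, ?_⟩
  have h2 := congrArg Complex.im hk
  have hpi := Real.pi_pos
  have e1 : (((2 * Real.pi * x : ℝ) : ℂ) * Complex.I).im = 2 * Real.pi * x := by simp
  have e2 : ((k : ℂ) * (2 * Real.pi * Complex.I)).im = k * (2 * Real.pi) := by simp
  rw [e1, e2] at h2
  have h3 : 2 * Real.pi * (x - k) = 0 := by linarith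
  rcases mul_eq_zero.1 h3 with h4 | h4
  · linarith
  · linarith

theorem orth (N : ℕ) (hN : 0 < N) (k : ℤ) :
    ∑ j ∈ Finset.range N, ex (j * ((k : ℝ) / N)) = if (N : ℤ) ∣ k then (N : ℂ) else 0 := by
  have hN0 : (N : ℝ) ≠ 0 := by exact_mod_cast hN.ne'
  have h1 : ∀ j : ℕ, ex (j * ((k : ℝ) / N)) = ex ((k : ℝ) / N) ^ j := fun j => ex_nat_mul j _
  simp only [h1]
  split_ifs with hd
  · obtain ⟨m, hm⟩ := hd
    have h2 : (k : ℝ) / N = (m : ℤ) := by
      rw [hm]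
      push_cast
      field_simp
    rw [h2, ex_int]
    simp
  · have hz : ex ((k : ℝ) / N) ≠ 1 := by
      intro h
      obtain ⟨m, hm⟩ := ex_eq_one h
      apply hd
      refine ⟨m, ?_⟩
      rw [div_eq_iff hN0] at hm
      have : (k : ℝ) = ((N : ℤ) * m : ℤ) := by rw [hm]; push_cast; ring
      exact_mod_cast this
    rw [geom_sum_eq hz]
    have h3 : ex ((k : ℝ) / N) ^ N = 1 := by
      rw [← ex_nat_mul]
      have : (N : ℝ) * ((k : ℝ) / N) = (k : ℤ) := by field_simp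
      rw [this, ex_int]
    rw [h3, sub_self, zero_div]

/-- the exponential sum `F_R(x) = ∑_{n ≤ R} μ(n) e(n x)` -/
def FR (R : ℕ) (x : ℝ) : ℂ := ∑ n ∈ Finset.Icc 1 R, ((ArithmeticFunction.moebius n : ℤ) : ℂ) * ex (n * x)

theorem FR_norm (R : ℕ) (x : ℝ) : ‖FR R x‖ ≤ R := by
  unfold FR
  refine (norm_sum_le _ _).trans ?_
  refine (Finset.sum_le_card_nsmul _ _ 1 fun n _ => ?_).trans (by simp)
  rw [norm_mul, norm_ex, mul_one, Complex.norm_intCast]
  exact_mod_cast ArithmeticFunction.abs_moebius_le_one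

theorem FR_fract (R : ℕ) (x : ℝ) : FR R (Int.fract x) = FR R x := by
  unfold FR
  refine Finset.sum_congr rfl fun n _ => ?_
  congr 1
  have h1 : (n : ℝ) * x = n * Int.fract x + ((n * ⌊x⌋ : ℤ) : ℝ) := by
    conv_lhs => rw [← Int.floor_add_fract x]
    push_cast
    ring
  rw [h1, ex_add, ex_int, mul_one]

/-- the sup norm on `[0, 1]` -/
def SN (R : ℕ) : ℝ := sSup ((fun x => ‖FR R x‖) '' Set.Icc (0:ℝ) 1)

theorem FR_le_SN (R : ℕ) (x : ℝ) : ‖FR R x‖ ≤ SN R := by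
  rw [← FR_fract]
  refine le_csSup ⟨R, ?_⟩ ⟨Int.fract x, ⟨Int.fract_nonneg x, (Int.fract_lt_one x).le⟩, rfl⟩
  rintro _ ⟨y, _, rfl⟩
  exact FR_norm R y

theorem SN_nonneg (R : ℕ) : 0 ≤ SN R := (norm_nonneg _).trans (FR_le_SN R 0)

theorem SN_le {R : ℕ} {B : ℝ} (h : ∀ x, ‖FR R x‖ ≤ B) : SN R ≤ B := by
  refine csSup_le ⟨_, ⟨0, by simp, rfl⟩⟩ ?_
  rintro _ ⟨y, _, rfl⟩
  exact h y

theorem complete_id (K R : ℕ) (hKR : K ≤ R) (x : ℝ) :
    FR K x = ∑ j ∈ Finset.range (R + 1), ((R + 1 : ℕ) : ℂ)⁻¹ *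
      (∑ m ∈ Finset.Icc 1 K, ex (-(j * ((m : ℝ) / (R + 1 : ℕ))))) * FR R (x + j / (R + 1 : ℕ)) := by
  classical
  have hN0 : ((R + 1 : ℕ) : ℂ) ≠ 0 := by exact_mod_cast (Nat.succ_ne_zero R)
  have e1 : ∀ j : ℕ, ((R + 1 : ℕ) : ℂ)⁻¹ *
      (∑ m ∈ Finset.Icc 1 K, ex (-(j * ((m : ℝ) / (R + 1 : ℕ))))) * FR R (x + j / (R + 1 : ℕ)) =
      ∑ n ∈ Finset.Icc 1 R, ∑ m ∈ Finset.Icc 1 K, ((ArithmeticFunction.moebius n : ℤ) : ℂ) * ex (n * x) *
        (((R + 1 : ℕ) : ℂ)⁻¹ * ex (j * ((((n : ℤ) - m : ℤ) : ℝ) / (R + 1 : ℕ)))) := by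
    intro j
    unfold FR
    rw [mul_assoc, Finset.sum_mul_sum, Finset.sum_comm, Finset.mul_sum]
    refine Finset.sum_congr rfl fun n _ => ?_
    rw [Finset.mul_sum]
    refine Finset.sum_congr rfl fun m _ => ?_
    have h1 : (n : ℝ) * (x + j / (R + 1 : ℕ)) = n * x + n * (j / (R + 1 : ℕ)) := by ring
    have h2 : (j : ℝ) * ((((n : ℤ) - m : ℤ) : ℝ) / (R + 1 : ℕ)) =
        -(j * ((m : ℝ) / (R + 1 : ℕ))) + n * (j / (R + 1 : ℕ)) := by
      push_cast
      ring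
    rw [h1, h2, ex_add, ex_add]
    ring
  simp only [e1]
  rw [Finset.sum_comm]
  have e2 : ∀ n ∈ Finset.Icc 1 R, (∑ j ∈ Finset.range (R + 1), ∑ m ∈ Finset.Icc 1 K,
      ((ArithmeticFunction.moebius n : ℤ) : ℂ) * ex (n * x) *
        (((R + 1 : ℕ) : ℂ)⁻¹ * ex (j * ((((n : ℤ) - m : ℤ) : ℝ) / (R + 1 : ℕ))))) =
      if n ≤ K then ((ArithmeticFunction.moebius n : ℤ) : ℂ) * ex (n * x) else 0 := by
    intro n hn
    rw [Finset.mem_Icc] at hn
    rw [Finset.sum_comm]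
    have e3 : ∀ m ∈ Finset.Icc 1 K, (∑ j ∈ Finset.range (R + 1),
        ((ArithmeticFunction.moebius n : ℤ) : ℂ) * ex (n * x) *
        (((R + 1 : ℕ) : ℂ)⁻¹ * ex (j * ((((n : ℤ) - m : ℤ) : ℝ) / (R + 1 : ℕ))))) =
        if m = n then ((ArithmeticFunction.moebius n : ℤ) : ℂ) * ex (n * x) else 0 := by
      intro m hm
      rw [Finset.mem_Icc] at hm
      rw [← Finset.mul_sum, ← Finset.mul_sum, orth (R + 1) (Nat.succ_pos R)]
      by_cases h : m = n
      · subst h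
        rw [if_pos (by simp), if_pos rfl, inv_mul_cancel₀ hN0, mul_one]
      · rw [if_neg (by
          rintro ⟨k, hk⟩
          have h1 : |((n : ℤ) - m)| < ((R + 1 : ℕ) : ℤ) := by
            rw [abs_lt]
            constructor <;> push_cast <;> omega
          have h2 : ((n : ℤ) - m) = 0 := Int.eq_zero_of_abs_lt_dvd ⟨k, hk⟩ h1
          omega), if_neg h]
        ring
    rw [Finset.sum_congr rfl e3, Finset.sum_ite_eq']
    by_cases h : n ≤ K
    · rw [if_pos (Finset.mem_Icc.2 ⟨hn.1, h⟩), if_pos h]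
    · rw [if_neg (fun h2 => h (Finset.mem_Icc.1 h2).2), if_neg h]
  rw [Finset.sum_congr rfl e2, ← Finset.sum_filter]
  unfold FR
  refine Finset.sum_congr ?_ fun _ _ => rfl
  ext n
  simp only [Finset.mem_filter, Finset.mem_Icc]
  omega

theorem kernel_bound (K R : ℕ) (hKR : K ≤ R) :
    ∑ j ∈ Finset.range (R + 1), ((R + 1 : ℕ) : ℝ)⁻¹ *
      ‖∑ m ∈ Finset.Icc 1 K, ex (-(j * ((m : ℝ) / (R + 1 : ℕ))))‖ ≤ 2 + Real.log (R + 1 : ℕ) := by
  set N := R + 1 with hN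
  have hN0 : (0:ℝ) < N := by exact_mod_cast Nat.succ_pos R
  rw [← Finset.mul_sum, Finset.range_eq_Ico, Finset.sum_eq_sum_Ico_succ_bot (Nat.succ_pos R)]
  have h0 : ‖∑ m ∈ Finset.Icc 1 K, ex (-(((0 : ℕ) : ℝ) * ((m : ℝ) / N)))‖ ≤ N := by
    refine (norm_sum_le _ _).trans ?_
    refine (Finset.sum_le_card_nsmul _ _ 1 fun n _ => by rw [norm_ex]).trans ?_
    rw [Nat.card_Icc, nsmul_eq_mul, mul_one]
    exact_mod_cast (by omega : K + 1 - 1 ≤ N)
  have h1 : ∀ j ∈ Finset.Ico (0 + 1) N, ‖∑ m ∈ Finset.Icc 1 K, ex (-(j * ((m : ℝ) / N)))‖ ≤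
      (N : ℝ) / 2 * (1 / j + 1 / ((N - j : ℕ) : ℝ)) := by
    intro j hj
    rw [Finset.mem_Ico] at hj
    have h2 := geom_le K N j (by omega) hj.2
    refine le_trans (le_of_eq ?_) h2
    rw [← Complex.norm_conj, map_sum]
    congr 1
    refine Finset.sum_congr rfl fun m _ => ?_
    rw [ex_def, ex_def, ← Complex.exp_conj, map_mul, Complex.conj_ofReal, Complex.conj_I]
    congr 1
    push_cast
    ring
  have h2 : ∑ j ∈ Finset.Ico (0 + 1) N, ‖∑ m ∈ Finset.Icc 1 K, ex (-(j * ((m : ℝ) / N)))‖ ≤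
      N * (1 + Real.log N) := by
    refine (Finset.sum_le_sum h1).trans ?_
    rw [← Finset.mul_sum, Finset.sum_add_distrib, zero_add, sum_reflect N (Nat.succ_pos R)]
    have h3 := harmonic_le N (Nat.succ_pos R)
    calc (N : ℝ) / 2 * (∑ j ∈ Finset.Ico 1 N, 1 / (j : ℝ) + ∑ j ∈ Finset.Ico 1 N, 1 / (j : ℝ))
        = N * ∑ j ∈ Finset.Ico 1 N, 1 / (j : ℝ) := by ring
      _ ≤ _ := by gcongr
  rw [inv_mul_le_iff₀ hN0]
  calc _ ≤ (N : ℝ) + N * (1 + Real.log N) := add_le_add h0 h2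
    _ = _ := by ring

theorem SN_mono (K R : ℕ) (hKR : K ≤ R) : SN K ≤ (2 + Real.log (R + 1 : ℕ)) * SN R := by
  refine SN_le fun x => ?_
  rw [complete_id K R hKR x]
  refine (norm_sum_le _ _).trans ?_
  refine le_trans ?_ (mul_le_mul_of_nonneg_right (kernel_bound K R hKR) (SN_nonneg R))
  rw [Finset.sum_mul]
  refine Finset.sum_le_sum fun j _ => ?_
  rw [norm_mul, norm_mul, norm_inv, Complex.norm_natCast]
  exact mul_le_mul_of_nonneg_left (FR_le_SN _ _) (by positivity)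

variable {q : ℕ} [NeZero q] (χ : DirichletCharacter ℂ q)

theorem muchi_sum_le (K : ℕ) : ‖∑ n ∈ Finset.Icc 1 K, muchi χ n‖ ≤ q * SN K := by
  classical
  have hq : 0 < q := Nat.pos_of_ne_zero (NeZero.ne q)
  have hq0 : (q : ℂ) ≠ 0 := by exact_mod_cast hq.ne'
  have e1 : ∑ n ∈ Finset.Icc 1 K, muchi χ n = ∑ b ∈ Finset.range q, χ (b : ZMod q) *
      ((q : ℂ)⁻¹ * ∑ j ∈ Finset.range q, ex (-(j * ((b : ℝ) / q))) * FR K (j / q)) := by
    have e2 : ∀ b ∈ Finset.range q, χ (b : ZMod q) *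
        ((q : ℂ)⁻¹ * ∑ j ∈ Finset.range q, ex (-(j * ((b : ℝ) / q))) * FR K (j / q)) =
        ∑ n ∈ Finset.Icc 1 K, if n % q = b then muchi χ n else 0 := by
      intro b hb
      rw [Finset.mem_range] at hb
      unfold FR
      simp only [Finset.mul_sum]
      rw [Finset.sum_comm]
      refine Finset.sum_congr rfl fun n _ => ?_
      have e3 : ∀ j : ℕ, χ (b : ZMod q) * ((q : ℂ)⁻¹ * (ex (-(j * ((b : ℝ) / q))) *
          (((ArithmeticFunction.moebius n : ℤ) : ℂ) * ex (n * (j / q))))) =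
          χ (b : ZMod q) * ((ArithmeticFunction.moebius n : ℤ) : ℂ) * (q : ℂ)⁻¹ *
            ex (j * ((((n : ℤ) - b : ℤ) : ℝ) / q)) := by
        intro j
        have h2 : (j : ℝ) * ((((n : ℤ) - b : ℤ) : ℝ) / q) =
            -(j * ((b : ℝ) / q)) + n * (j / q) := by
          push_cast
          ring
        rw [h2, ex_add]
        ring
      simp only [e3]
      rw [← Finset.mul_sum, orth q hq]
      have hiff : ((q : ℤ) ∣ (n : ℤ) - b) ↔ n % q = b := by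
        rw [← Int.modEq_iff_dvd, Int.natCast_modEq_iff]
        unfold Nat.ModEq
        rw [Nat.mod_eq_of_lt hb]
        exact eq_comm
      by_cases h : n % q = b
      · rw [if_pos (hiff.2 h), if_pos h]
        have h4 : ((n : ℕ) : ZMod q) = (b : ZMod q) := by
          rw [ZMod.natCast_eq_natCast_iff]
          unfold Nat.ModEq
          rw [h, Nat.mod_eq_of_lt hb]
        unfold muchi
        rw [h4]
        field_simp
      · rw [if_neg (fun h' => h (hiff.1 h')), if_neg h, mul_zero]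
    rw [Finset.sum_congr rfl e2, Finset.sum_comm]
    refine Finset.sum_congr rfl fun n _ => ?_
    rw [Finset.sum_ite_eq, if_pos (Finset.mem_range.2 (Nat.mod_lt _ hq))]
  rw [e1]
  refine (norm_sum_le _ _).trans ?_
  refine (Finset.sum_le_card_nsmul _ _ (SN K) fun b _ => ?_).trans (by simp)
  rw [norm_mul, norm_mul, norm_inv, Complex.norm_natCast]
  have h1 : ‖∑ j ∈ Finset.range q, ex (-(j * ((b : ℝ) / q))) * FR K (j / q)‖ ≤ q * SN K := by
    refine (norm_sum_le _ _).trans ?_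
    refine (Finset.sum_le_card_nsmul _ _ (SN K) fun j _ => ?_).trans (by simp)
    rw [norm_mul, norm_ex, one_mul]
    exact FR_le_SN _ _
  have hq1 : (0:ℝ) < q := by exact_mod_cast hq
  calc ‖χ (b : ZMod q)‖ * ((q : ℝ)⁻¹ * ‖∑ j ∈ Finset.range q, ex (-(j * ((b : ℝ) / q))) * FR K (j / q)‖)
      ≤ 1 * ((q : ℝ)⁻¹ * (q * SN K)) := by
        gcongr
        exact DirichletCharacter.norm_le_one χ _
    _ = SN K := by field_simp

end

end Pool.Agent.W190.M
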