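import Pool.Agent.W190.M.M6

/-! # The exponential sum of the Möbius function is large for every length if some `L(s, χ)` has a
zero to the right -/

set_option autoImplicit false

open Filter Topology Set MeasureTheory
open Pool.Agent.W190

namespace Pool.Agent.W190.M

noncomputable section

/-- from the integral over a window to a bound for the supremum -/
theorem sup_window {g : ℝ → ℝ} {u w B : ℝ} (huw : u ≤ w) (hB : ∀ v, u ≤ v → v ≤ w → g v ≤ B)
    (hg0 : ∀ v, 0 ≤ g v) : ∫ v in u..w, g v ≤ (w - u) * B := by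
  have hB0 : 0 ≤ B := (hg0 u).trans (hB u le_rfl huw)
  have h := intervalIntegral.norm_integral_le_of_norm_le_const (a := u) (b := w) (f := g) (C := B) (by
    intro v hv
    rw [uIoc_of_le huw] at hv
    rw [Real.norm_eq_abs, abs_of_nonneg (hg0 v)]
    exact hB v hv.1.le hv.2)
  rw [abs_of_nonneg (by linarith), mul_comm] at h
  exact (le_abs_self _).trans h

variable {q : ℕ} [NeZero q] (χ : DirichletCharacter ℂ q)

theorem SN_large {ρ : ℂ} (hρ : DirichletCharacter.LFunction χ ρ = 0) (h0 : 0 < ρ.re)
    (h1 : ρ.re < 1) (α : ℝ) (hα : α < ρ.re) : ∀ᶠ R : ℕ in atTop, (R : ℝ) ^ α ≤ SN R := by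
  have hq : 0 < q := Nat.pos_of_ne_zero (NeZero.ne q)
  set α' : ℝ := max α 0 with hα'
  have hα'0 : 0 ≤ α' := le_max_right _ _
  have hα'1 : α' < ρ.re := max_lt hα h0
  set g : ℝ := ρ.re - α' with hg
  have hg0 : 0 < g := by rw [hg]; linarith
  have hg1 : g ≤ 1 := by rw [hg]; linarith
  have hwin := muchi_window χ hρ h0 h1 0 (δ := g / 4) (ε := g / 4) (by positivity) (by positivity)
  -- `v = log R / (1 + g / 4)`
  have hlog : Tendsto (fun R : ℕ => Real.log (R : ℝ)) atTop atTop :=
    Real.tendsto_log_atTop.comp tendsto_natCast_atTop_atTop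
  have ht : Tendsto (fun R : ℕ => Real.log R / (1 + g / 4)) atTop atTop :=
    hlog.atTop_div_const (by positivity)
  have hsmall : ∀ᶠ L : ℝ in atTop, (q : ℝ) * (L * (3 + L)) ≤ Real.exp (g / 2 * L) := by
    have h2 : SE (fun L : ℝ => (q : ℝ) * (L * (3 + L))) := by
      have h3 : SE (fun L : ℝ => 3 + L) := (SE.const 3).add
        (SE.mono (SE.id_rpow 1) (by filter_upwards with u using by rw [Real.rpow_one]))
      have h4 : SE (fun L : ℝ => L) :=
        SE.mono (SE.id_rpow 1) (by filter_upwards with u using by rw [Real.rpow_one])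
      have h5 : SE (fun L : ℝ => L * (3 + L)) := h4.mul h3 (by
        filter_upwards [eventually_ge_atTop 0] with u hu using by linarith)
      exact (SE.const (q : ℝ)).mul h5 (by
        filter_upwards [eventually_ge_atTop 0] with u hu using by positivity)
    exact h2 (g / 2) (by positivity)
  filter_upwards [ht.eventually hwin, hlog.eventually hsmall, eventually_ge_atTop 3] with R hw hs hR
  have hR1 : (3:ℝ) ≤ R := by exact_mod_cast hR
  have hR0 : (0:ℝ) < R := by linarith
  set L := Real.log (R : ℝ) with hL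
  have hL0 : 0 ≤ L := Real.log_nonneg (by linarith)
  set v := L / (1 + g / 4) with hv
  have hv0 : 0 ≤ v := by positivity
  have hvL : v + g / 4 * v = L := by rw [hv]; field_simp
  have hvL2 : v ≤ L := by nlinarith
  have hw2 := hw (fun _ => 0)
  have hPE : ∀ w : ℝ, PE 0 (fun _ => 0) w = 0 := fun w => by simp [PE]
  simp only [hPE, sub_zero] at hw2
  have hlogR : 2 + Real.log ((R + 1 : ℕ) : ℝ) ≤ 3 + L := by
    have h2 : Real.log ((R + 1 : ℕ) : ℝ) ≤ Real.log (R * Real.exp 1) := by
      apply Real.log_le_log (by positivity)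
      push_cast
      have := Real.add_one_le_exp (1:ℝ)
      nlinarith
    rw [Real.log_mul hR0.ne' (Real.exp_pos 1).ne', Real.log_exp] at h2
    linarith
  have hb : ∀ w : ℝ, v ≤ w → w ≤ v + g / 4 * v → ‖TT (muchi χ) w‖ ≤ q * ((3 + L) * SN R) := by
    intro w _ hw3
    unfold TT
    refine (muchi_sum_le χ _).trans ?_
    have hfl : ⌊Real.exp w⌋₊ ≤ R := by
      have h2 : Real.exp w ≤ R := by
        rw [← Real.exp_log hR0]
        apply Real.exp_le_exp.2
        linarith
      exact_mod_cast Nat.floor_le_floor h2 |>.trans (by simp)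
    have h3 := SN_mono _ _ hfl
    have h4 := SN_nonneg R
    gcongr
    refine h3.trans ?_
    gcongr
  have h5 := sup_window (g := fun w => ‖TT (muchi χ) w‖) (u := v) (w := v + g / 4 * v)
    (B := q * ((3 + L) * SN R)) (by nlinarith) hb (fun _ => norm_nonneg _)
  have h6 : Real.exp ((ρ.re - g / 4) * v) ≤ L * (q * ((3 + L) * SN R)) := by
    refine hw2.trans (h5.trans ?_)
    have h7 : v + g / 4 * v - v ≤ L := by linarith
    have h4 := SN_nonneg R
    gcongr
  have h7 : Real.exp ((α' + g / 2) * L) ≤ Real.exp ((ρ.re - g / 4) * v) := by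
    apply Real.exp_le_exp.2
    rw [← hvL]
    have h8 : (α' + g / 2) * (1 + g / 4) ≤ ρ.re - g / 4 := by
      have h9 : ρ.re = α' + g := by rw [hg]; ring
      rw [h9]
      have : α' + g / 2 ≤ 1 := by linarith
      nlinarith
    calc (α' + g / 2) * (v + g / 4 * v) = ((α' + g / 2) * (1 + g / 4)) * v := by ring
      _ ≤ _ := by gcongr
  have h8 : Real.exp (α' * L) * Real.exp (g / 2 * L) ≤ Real.exp (g / 2 * L) * SN R := by
    rw [← Real.exp_add]
    calc Real.exp (α' * L + g / 2 * L) = Real.exp ((α' + g / 2) * L) := by congr 1; ring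
      _ ≤ L * (q * ((3 + L) * SN R)) := h7.trans h6
      _ = (q * (L * (3 + L))) * SN R := by ring
      _ ≤ _ := by
          have h4 := SN_nonneg R
          gcongr
  have h9 : Real.exp (α' * L) ≤ SN R := by
    rw [mul_comm] at h8
    exact le_of_mul_le_mul_left h8 (Real.exp_pos _)
  refine le_trans ?_ h9
  rw [Real.rpow_def_of_pos hR0]
  apply Real.exp_le_exp.2
  rw [mul_comm]
  have : α ≤ α' := le_max_left _ _
  gcongr

end

end Pool.Agent.W190.M
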