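import Pool.Agent.W190.M.M7

/-! # Primes in the residue classes of a fixed modulus in mesoscopic windows -/

set_option autoImplicit false

open Filter Topology Set MeasureTheory
open Pool.Agent.W190

namespace Pool.Agent.W190.M

noncomputable section

/-- `ψ(x; q, a)` -/
def psiq (x : ℝ) (q a : ℕ) : ℝ :=
  ∑ n ∈ (Finset.Icc 1 ⌊x⌋₊).filter (fun n => n ≡ a [MOD q]), ArithmeticFunction.vonMangoldt n

/-- the reduced residues -/
def red (q : ℕ) : Finset ℕ := (Finset.range q).filter (fun a => Nat.Coprime a q)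

theorem red_card (q : ℕ) : (red q).card ≤ q := by
  unfold red
  exact (Finset.card_filter_le _ _).trans (by simp)

variable {q : ℕ} [NeZero q] (χ : DirichletCharacter ℂ q)

theorem lamchi_classes (v : ℝ) :
    TT (lamchi χ) v = ∑ a ∈ red q, χ (a : ZMod q) * ((psiq (Real.exp v) q a : ℝ) : ℂ) := by
  classical
  have hq : 0 < q := Nat.pos_of_ne_zero (NeZero.ne q)
  unfold TT psiq
  have h1 : ∀ a ∈ red q, χ (a : ZMod q) * ((∑ n ∈ (Finset.Icc 1 ⌊Real.exp v⌋₊).filter
      (fun n => n ≡ a [MOD q]), ArithmeticFunction.vonMangoldt n : ℝ) : ℂ) =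
      ∑ n ∈ Finset.Icc 1 ⌊Real.exp v⌋₊, if n % q = a then lamchi χ n else 0 := by
    intro a ha
    have ha' : a < q := by
      unfold red at ha
      rw [Finset.mem_filter, Finset.mem_range] at ha
      exact ha.1
    push_cast
    rw [Finset.mul_sum, Finset.sum_filter]
    refine Finset.sum_congr rfl fun n _ => ?_
    have hiff : (n ≡ a [MOD q]) ↔ n % q = a := by
      unfold Nat.ModEq
      rw [Nat.mod_eq_of_lt ha']
    by_cases h : n % q = a
    · rw [if_pos (hiff.2 h), if_pos h]
      have h4 : ((n : ℕ) : ZMod q) = (a : ZMod q) :=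
        (ZMod.natCast_eq_natCast_iff n a q).2 (hiff.2 h)
      unfold lamchi
      rw [h4]
    · rw [if_neg (fun h' => h (hiff.1 h')), if_neg h]
  rw [Finset.sum_congr rfl h1, Finset.sum_comm]
  refine Finset.sum_congr rfl fun n _ => ?_
  rw [Finset.sum_ite_eq]
  split_ifs with h
  · rfl
  · have hn : ¬ IsUnit ((n : ℕ) : ZMod q) := by
      intro hu
      apply h
      unfold red
      rw [Finset.mem_filter, Finset.mem_range]
      refine ⟨Nat.mod_lt _ hq, ?_⟩
      rw [ZMod.isUnit_iff_coprime] at hu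
      have := Nat.mod_add_div n q
      rw [Nat.coprime_iff_gcd_eq_one] at hu ⊢
      rw [← hu, ← Nat.gcd_rec, Nat.gcd_comm]
    unfold lamchi
    rw [χ.map_nonunit hn, zero_mul]

/-- large error terms in every window `[x, x^(1+δ)]` -/
theorem psiq_large {ρ : ℂ} (hρ : DirichletCharacter.LFunction χ ρ = 0) (h0 : 0 < ρ.re)
    (h1 : ρ.re < 1) (α δ : ℝ) (hα : α < ρ.re) (hδ : 0 < δ) :
    ∀ᶠ x : ℝ in atTop, ∃ u : ℝ, x ≤ u ∧ u ≤ x ^ (1 + δ) ∧ ∃ a : ℕ, a < q ∧ Nat.Coprime a q ∧
      u ^ α < |psiq u q a - u / (Nat.totient q : ℝ)| := by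
  have hq : 0 < q := Nat.pos_of_ne_zero (NeZero.ne q)
  set α' : ℝ := max α 0 with hα'
  have hα'0 : 0 ≤ α' := le_max_right _ _
  have hα'1 : α' < ρ.re := max_lt hα h0
  set g : ℝ := ρ.re - α' with hg
  have hg0 : 0 < g := by rw [hg]; linarith
  have hg1 : g ≤ 1 := by rw [hg]; linarith
  set δ' : ℝ := min δ (g / 4) with hδ'
  have hδ'0 : 0 < δ' := lt_min hδ (by positivity)
  have hδ'1 : δ' ≤ δ := min_le_left _ _
  have hδ'2 : δ' ≤ g / 4 := min_le_right _ _
  have hwin := lamchi_window χ hρ h0 h1 1 (δ := δ') (ε := g / 4) hδ'0 (by positivity)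
  have hsmall : ∀ᶠ v : ℝ in atTop, (q : ℝ) * v < Real.exp (g / 4 * v) := by
    have h2 : SE (fun v : ℝ => (q : ℝ) * v) := by
      have h4 : SE (fun L : ℝ => L) :=
        SE.mono (SE.id_rpow 1) (by filter_upwards with u using by rw [Real.rpow_one])
      exact (SE.const (q : ℝ)).mul h4 (eventually_ge_atTop 0)
    filter_upwards [h2 (g / 8) (by positivity), eventually_gt_atTop 0] with v hv hv0
    refine hv.trans_lt (Real.exp_lt_exp.2 ?_)
    nlinarith
  filter_upwards [Real.tendsto_log_atTop.eventually hwin, Real.tendsto_log_atTop.eventually hsmall,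
    eventually_gt_atTop 1] with x hw hs hx1
  have hx0 : 0 < x := by linarith
  set v := Real.log x with hv
  have hv0 : 0 < v := Real.log_pos hx1
  have hxv : Real.exp v = x := Real.exp_log hx0
  by_contra hcon
  push Not at hcon
  set c : ℕ → ℂ := fun k => if k = 1 then (Nat.totient q : ℂ)⁻¹ * ∑ a ∈ red q, χ (a : ZMod q) else 0
    with hc
  have hw2 := hw c
  have hPE : ∀ w : ℝ, PE 1 c w = (Nat.totient q : ℂ)⁻¹ * (∑ a ∈ red q, χ (a : ZMod q)) *
      ((Real.exp w : ℝ) : ℂ) := by
    intro w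
    unfold PE
    rw [Finset.sum_range_succ, Finset.sum_range_one]
    simp [hc]
  have hb : ∀ w : ℝ, v ≤ w → w ≤ v + δ' * v →
      ‖TT (lamchi χ) w - PE 1 c w‖ ≤ q * Real.exp (α' * ((1 + δ') * v)) := by
    intro w hw3 hw4
    rw [lamchi_classes, hPE]
    have e1 : (∑ a ∈ red q, χ (a : ZMod q) * ((psiq (Real.exp w) q a : ℝ) : ℂ)) -
        (Nat.totient q : ℂ)⁻¹ * (∑ a ∈ red q, χ (a : ZMod q)) * ((Real.exp w : ℝ) : ℂ) =
        ∑ a ∈ red q, χ (a : ZMod q) *
          ((psiq (Real.exp w) q a - Real.exp w / (Nat.totient q : ℝ) : ℝ) : ℂ) := by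
      rw [mul_assoc, Finset.sum_mul, Finset.mul_sum, ← Finset.sum_sub_distrib]
      refine Finset.sum_congr rfl fun a _ => ?_
      push_cast
      ring
    rw [e1]
    refine (norm_sum_le _ _).trans ?_
    have h3 : ∀ a ∈ red q, ‖χ (a : ZMod q) *
        ((psiq (Real.exp w) q a - Real.exp w / (Nat.totient q : ℝ) : ℝ) : ℂ)‖ ≤
        Real.exp (α' * ((1 + δ') * v)) := by
      intro a ha
      unfold red at ha
      rw [Finset.mem_filter, Finset.mem_range] at ha
      have hw5 : Real.exp w ≤ x ^ (1 + δ) := by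
        rw [Real.rpow_def_of_pos hx0]
        apply Real.exp_le_exp.2
        nlinarith
      have h5 := hcon (Real.exp w) (by rw [← hxv]; exact Real.exp_le_exp.2 hw3) hw5 a ha.1 ha.2
      rw [norm_mul, Complex.norm_real, Real.norm_eq_abs]
      have h6 : Real.exp w ^ α ≤ Real.exp (α' * ((1 + δ') * v)) := by
        rw [← Real.exp_mul]
        apply Real.exp_le_exp.2
        have h7 : α ≤ α' := le_max_left _ _
        have h8 : 0 ≤ w := by linarith
        calc w * α ≤ w * α' := by gcongr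
          _ ≤ ((1 + δ') * v) * α' := by
              gcongr
              linarith
          _ = _ := by ring
      calc ‖χ (a : ZMod q)‖ * |psiq (Real.exp w) q a - Real.exp w / (Nat.totient q : ℝ)| ≤
          1 * Real.exp (α' * ((1 + δ') * v)) := by
            gcongr
            · exact DirichletCharacter.norm_le_one χ _
            · exact h5.trans h6
        _ = _ := one_mul _
    refine (Finset.sum_le_card_nsmul _ _ _ h3).trans ?_
    rw [nsmul_eq_mul]
    have : ((red q).card : ℝ) ≤ q := by exact_mod_cast red_card q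
    gcongr
  have h5 := sup_window (g := fun w => ‖TT (lamchi χ) w - PE 1 c w‖) (u := v) (w := v + δ' * v)
    (B := q * Real.exp (α' * ((1 + δ') * v))) (by nlinarith) hb (fun _ => norm_nonneg _)
  have h6 : Real.exp ((ρ.re - g / 4) * v) ≤ (q * v) * Real.exp (α' * ((1 + δ') * v)) := by
    refine hw2.trans (h5.trans ?_)
    have h7 : v + δ' * v - v ≤ v := by nlinarith
    calc (v + δ' * v - v) * (q * Real.exp (α' * ((1 + δ') * v))) ≤
        v * (q * Real.exp (α' * ((1 + δ') * v))) := by gcongr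
      _ = _ := by ring
  have h7 : Real.exp ((ρ.re - g / 4) * v) < Real.exp (g / 4 * v) * Real.exp (α' * ((1 + δ') * v)) :=
    h6.trans_lt (mul_lt_mul_of_pos_right hs (Real.exp_pos _))
  rw [← Real.exp_add, Real.exp_lt_exp] at h7
  have h9 : ρ.re = α' + g := by rw [hg]; ring
  rw [h9] at h7
  have h10 : α' * δ' ≤ g / 4 := by
    have : α' ≤ 1 := by linarith
    nlinarith
  nlinarith

end

end Pool.Agent.W190.M
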